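import Mathlib

namespace Pool.Agent.Results.MP_632fda_an.Both

open ContinuousLinearMap

section Alg

variable {X : Type} [NormedAddCommGroup X] [NormedSpace ℂ X]

/-- The exponents at which the kernel chain is stationary. -/
def AscSet (T : X →L[ℂ] X) : Set ℕ := {k | (T ^ (k + 1)).ker = (T ^ k).ker}

/-- The exponents at which the range chain is stationary. -/
def DscSet (T : X →L[ℂ] X) : Set ℕ := {k | (T ^ (k + 1)).range = (T ^ k).range}

/-- Left Drazin invertibility. -/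
def LeftDrazin (T : X →L[ℂ] X) : Prop :=
  (AscSet T).Nonempty ∧ IsClosed ((T ^ (sInf (AscSet T) + 1)).range : Set X)

/-- Right Drazin invertibility. -/
def RightDrazin (T : X →L[ℂ] X) : Prop :=
  (DscSet T).Nonempty ∧ IsClosed ((T ^ sInf (DscSet T)).range : Set X)

/-- Drazin invertibility. -/
def Drazin (T : X →L[ℂ] X) : Prop := (AscSet T).Nonempty ∧ (DscSet T).Nonempty

/-- The dimension of a subspace, finite or infinite. -/
noncomputable def dim (V : Submodule ℂ X) : ℕ∞ := Cardinal.toENat (Module.rank ℂ V)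

lemma pw (T : X →L[ℂ] X) (k : ℕ) (x : X) : (T ^ (k + 1)) x = (T ^ k) (T x) := by
  rw [pow_succ]; rfl

lemma pw' (T : X →L[ℂ] X) (k : ℕ) (x : X) : (T ^ (k + 1)) x = T ((T ^ k) x) := by
  rw [pow_succ']; rfl

lemma asc_iff {T : X →L[ℂ] X} {k : ℕ} : k ∈ AscSet T ↔ ∀ x, (T ^ (k + 1)) x = 0 → (T ^ k) x = 0 :=
  ⟨fun h x hx => (h.le : _ ≤ _) hx, fun h => le_antisymm h fun x (hx : (T ^ k) x = 0) =>
    show (T ^ (k + 1)) x = 0 by rw [pw', hx, map_zero]⟩

lemma dsc_iff {T : X →L[ℂ] X} {k : ℕ} : k ∈ DscSet T ↔ ∀ x, ∃ y, (T ^ (k + 1)) y = (T ^ k) x :=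
  ⟨fun h x => (h.ge : _ ≤ _) ⟨x, rfl⟩, fun h => le_antisymm
    (by rintro _ ⟨x, rfl⟩; exact ⟨T x, (pw T k x).symm⟩) (by rintro _ ⟨x, rfl⟩; exact h x)⟩

lemma asc_mono {T : X →L[ℂ] X} (h : (AscSet T).Nonempty) {p : ℕ} (hp : sInf (AscSet T) ≤ p) :
    p ∈ AscSet T := by
  induction hp with
  | refl => exact Nat.sInf_mem h
  | step _ ih => exact asc_iff.2 fun x hx => by rw [pw] at hx ⊢; exact asc_iff.1 ih _ hx

lemma dsc_mono {T : X →L[ℂ] X} (h : (DscSet T).Nonempty) {p : ℕ} (hp : sInf (DscSet T) ≤ p) :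
    p ∈ DscSet T ∧ (T ^ p).range = (T ^ sInf (DscSet T)).range := by
  induction hp with
  | refl => exact ⟨Nat.sInf_mem h, rfl⟩
  | step _ ih =>
    refine ⟨dsc_iff.2 fun x => ?_, ih.1.trans ih.2⟩
    obtain ⟨y, hy⟩ := dsc_iff.1 ih.1 x
    exact ⟨y, by rw [pw', hy, pw']⟩

end Alg

variable {H K : Type} [NormedAddCommGroup H] [InnerProductSpace ℂ H] [CompleteSpace H]
  [NormedAddCommGroup K] [InnerProductSpace ℂ K] [CompleteSpace K]

/-- The upper triangular operator matrix `M_C`. -/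
noncomputable def M (A : H →L[ℂ] H) (B : K →L[ℂ] K) (C : K →L[ℂ] H) : H × K →L[ℂ] H × K :=
  (A.coprod C).prod (B ∘L snd ℂ H K)

/-- Condition (iii). -/
def Cond3 (A : H →L[ℂ] H) (B : K →L[ℂ] K) : Prop :=
  ∃ δ > 0, ∀ l : ℂ, l ≠ 0 → ‖l‖ < δ → dim (A - l • 1).rangeᗮ = dim (B - l • 1).ker

/-- The subspace `R(A) + N(A^p)`. -/
noncomputable def SS (A : H →L[ℂ] H) (p : ℕ) : Submodule ℂ H := A.range ⊔ (A ^ p).ker

/-- The closure of `N(B) ∩ R(B^p)`. -/
noncomputable def TT (B : K →L[ℂ] K) (p : ℕ) : Submodule ℂ K :=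
  (B.ker ⊓ (B ^ p).range).topologicalClosure

/-- `p ≥ max {1, asc A, dsc B}` and condition (E). -/
def CondE (A : H →L[ℂ] H) (B : K →L[ℂ] K) (p : ℕ) : Prop :=
  1 ≤ p ∧ sInf (AscSet A) ≤ p ∧ sInf (DscSet B) ≤ p ∧ IsClosed (SS A p : Set H) ∧
    dim (SS A p)ᗮ = dim (TT B p)

/-- Admissible operators `C`. -/
def Adm (A : H →L[ℂ] H) (B : K →L[ℂ] K) (p : ℕ) (C : K →L[ℂ] H) : Prop :=
  ∃ J : TT B p ≃L[ℂ] (SS A p)ᗮ, (∀ t : TT B p, C t = J t) ∧ ∀ y ∈ (TT B p)ᗮ, C y = 0

omit [CompleteSpace H] [CompleteSpace K] in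
lemma M_apply (A : H →L[ℂ] H) (B : K →L[ℂ] K) (C : K →L[ℂ] H) (z : H × K) :
    M A B C z = (A z.1 + C z.2, B z.2) := rfl

theorem q2 {A : H →L[ℂ] H} {B : K →L[ℂ] K} {C : K →L[ℂ] H} {p : ℕ} (hA : (AscSet A).Nonempty)
    (hB : RightDrazin B) (hE : CondE A B p) (hC : Adm A B p C) : Drazin (M A B C) := by
  obtain ⟨p1, a1, b1, sc, -⟩ := hE
  obtain ⟨J, J1, J2⟩ := hC
  have a2 : ∀ j x, (A ^ j) x = 0 → (A ^ p) x = 0 := fun j x hx => by
    rcases le_total j p with h | h
    · obtain ⟨d, rfl⟩ := Nat.exists_eq_add_of_le' h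
      rw [pow_add, mul_apply_eq_comp, hx, map_zero]
    · induction h with
      | refl => exact hx
      | step h ih => exact ih (asc_iff.1 (asc_mono hA (a1.trans h)) _ hx)
  obtain ⟨b2, b3⟩ := dsc_mono hB.1 b1
  have tt : TT B p = B.ker ⊓ (B ^ p).range := IsClosed.submodule_topologicalClosure_eq
    ((isClosed_ker B).inter (b3 ▸ hB.2))
  have : CompleteSpace (TT B p) := (Submodule.isClosed_topologicalClosure _).completeSpace_coe
  have : CompleteSpace (SS A p) := sc.completeSpace_coe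
  have c1 : ∀ y, ∃ t ∈ TT B p, C t = C y := fun y => by
    obtain ⟨t, ht, u, hu, rfl⟩ := (TT B p).exists_add_mem_mem_orthogonal y
    exact ⟨t, ht, by simp [J2 u hu]⟩
  have c2 : ∀ y, C y ∈ SS A p → C y = 0 := fun y hy => by
    obtain ⟨t, ht, e⟩ := c1 y
    have : C y ∈ (SS A p)ᗮ := by rw [← e, J1 ⟨t, ht⟩]; exact (J _).2
    exact inner_self_eq_zero.1 (this _ hy)
  have snd : ∀ j z, ((M A B C ^ j) z).2 = (B ^ j) z.2 := fun j => by
    induction j with
    | zero => simp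
    | succ j ih => intro z; rw [pw, ih, pw]; rfl
  have fst : ∀ j i z, (A ^ i) ((M A B C ^ j) z).1 = 0 → ((M A B C ^ j) z).1 = (A ^ j) z.1 :=
    fun j => by
      induction j with
      | zero => simp
      | succ j ih =>
        intro i z h
        rw [pw', M_apply] at h ⊢
        have h1 := c2 _ (show C ((M A B C ^ j) z).2 ∈ SS A p from by
          rw [← add_sub_cancel_left (A ((M A B C ^ j) z).1) (C _)]
          exact sub_mem (Submodule.mem_sup_right (a2 _ _ h)) (Submodule.mem_sup_left ⟨_, rfl⟩))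
        simp only [h1, add_zero] at h ⊢
        rw [ih (i + 1) z (by rw [pw, h]), pw']
  refine ⟨⟨p, asc_iff.2 fun z hz => ?_⟩, p, dsc_iff.2 ?_⟩
  · rw [pw', M_apply, Prod.ext_iff] at hz
    have h1 := c2 _ (show C ((M A B C ^ p) z).2 ∈ SS A p from by
      rw [eq_neg_of_add_eq_zero_right hz.1]
      exact neg_mem (Submodule.mem_sup_left ⟨_, rfl⟩))
    have h2 : ((M A B C ^ p) z).2 ∈ TT B p := tt ▸ ⟨hz.2, z.2, (snd p z).symm⟩
    have h3 : A ((M A B C ^ p) z).1 = 0 := by simpa only [h1, add_zero, Prod.fst_zero] using hz.1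
    have h4 := fst p 1 z (by simpa using h3)
    refine Prod.ext (h4.trans (a2 (p + 1) _ (by rw [pw', ← h4, h3]))) ?_
    have : J ⟨_, h2⟩ = 0 := Subtype.ext ((J1 ⟨_, h2⟩).symm.trans h1)
    exact congrArg Subtype.val (J.map_eq_zero_iff.1 this)
  have onto : ∀ i y, ∃ w, (B ^ i) ((B ^ p) w) = (B ^ p) y := fun i => by
    induction i with
    | zero => exact fun y => ⟨y, rfl⟩
    | succ i ih =>
      intro y
      obtain ⟨w, hw⟩ := ih y
      obtain ⟨u, hu⟩ := dsc_iff.1 b2 w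
      exact ⟨u, by rw [pw, ← pw', hu, hw]⟩
  have fix : ∀ j ≤ p, ∀ n, (B ^ p) n = 0 → ∃ k, (B ^ p) (n - B k) = 0 ∧
      ∀ i, p - j ≤ i → C ((B ^ i) (n - B k)) = 0 := fun j hj n hn => by
    induction j with
    | zero =>
      refine ⟨0, by simpa using hn, fun i hi => ?_⟩
      obtain ⟨d, rfl⟩ := Nat.exists_eq_add_of_le' (show p ≤ i from hi)
      simp [pow_add, hn]
    | succ j ih =>
      obtain ⟨k, k1, k2⟩ := ih (by omega)
      obtain ⟨t, ht, e⟩ := c1 ((B ^ (p - (j + 1))) (n - B k))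
      obtain ⟨t1, y, rfl⟩ := tt ▸ ht
      obtain ⟨w, hw⟩ := onto (p - (j + 1)) y
      have z : ∀ i, p - j ≤ i → (B ^ i) ((B ^ p) w) = 0 := fun i hi => by
        obtain ⟨d, rfl⟩ := Nat.exists_eq_add_of_le' (show p - (j + 1) + 1 ≤ i by omega)
        rw [pow_add, mul_apply_eq_comp, pw', hw, show B ((B ^ p) y) = 0 from t1, map_zero]
      have e1 : n - B (k + (B ^ (p - 1)) w) = n - B k - (B ^ p) w := by
        rw [map_add, ← pw', Nat.sub_add_cancel p1, sub_sub]
      refine ⟨k + (B ^ (p - 1)) w, by rw [e1, map_sub, k1, z p (by omega), sub_zero], fun i hi => ?_⟩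
      rw [e1, map_sub, map_sub C]
      rcases hi.eq_or_lt with rfl | hi
      · rw [hw, ← e]
        exact sub_self _
      · rw [k2 i (by omega), z i (by omega), map_zero, sub_zero]
  have left : ∀ h, ∃ z, (M A B C ^ p) ((h, 0) - M A B C z) = 0 := fun h => by
    obtain ⟨s, hs, u, hu, rfl⟩ := (SS A p).exists_add_mem_mem_orthogonal h
    obtain ⟨_, ⟨a, rfl⟩, n, hn, rfl⟩ := Submodule.mem_sup.1 hs
    have t1 : B (J.symm ⟨u, hu⟩) = 0 := (tt.le (J.symm ⟨u, hu⟩).2).1
    refine ⟨(a, J.symm ⟨u, hu⟩), ?_⟩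
    have : ∀ j x, (M A B C ^ j) (x, 0) = ((A ^ j) x, 0) := fun j => by
      induction j with
      | zero => simp
      | succ j ih => intro x; simp only [pw, M_apply, ih, map_zero, add_zero]
    have e : (A a + n + u, (0 : K)) - M A B C (a, J.symm ⟨u, hu⟩) = (n, 0) := by
      rw [M_apply, t1, J1]
      simp [add_right_comm _ n]
    exact (congrArg _ e).trans ((this p n).trans (Prod.ext hn rfl))
  rintro ⟨h, y⟩
  obtain ⟨y1, hy⟩ := dsc_iff.1 b2 y
  obtain ⟨k, k1, k2⟩ := fix p le_rfl (y - B y1) (by rw [map_sub, ← pw, hy, sub_self])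
  have : ∀ j, (M A B C ^ j) (0, y - B y1 - B k) = (0, (B ^ j) (y - B y1 - B k)) := fun j => by
    induction j with
    | zero => simp
    | succ j ih => rw [pw', ih, M_apply, k2 j (by omega), pw', map_zero, add_zero]
  obtain ⟨z, hz⟩ := left (h - C (y1 + k))
  refine ⟨z + (0, y1 + k), ?_⟩
  have e : (h, y) = ((h - C (y1 + k), 0) - M A B C z) + (0, y - B y1 - B k) +
      M A B C (z + (0, y1 + k)) := by
    rw [map_add (M A B C)]
    ext <;> simp [M_apply] <;> abel
  rw [e, map_add (M A B C ^ p), map_add (M A B C ^ p), hz, this, k1, pw]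
  simp

lemma cex [Nontrivial H] (A S E P R : H →L[ℂ] H) (hA : ∀ x y, inner ℂ (A x) y = inner ℂ x (S y))
    (hE : ∀ x y, inner ℂ (E x) y = inner ℂ x (P y)) (sa : ∀ x, S (A x) = x) (pe : ∀ x, P (E x) = x)
    (se : ∀ x, S (E x) = 0) (pa : ∀ x, P (A x) = 0) (cu : ∀ x, A (S x) + E (P x) = x)
    (ri : ∀ x, R x = 0 → x = 0) (rd : DenseRange R) {v : H} (rv : ∀ x, R x ≠ v) :
    ¬FiniteDimensional ℂ H ∧ ∃ (B C : H →L[ℂ] H), LeftDrazin A ∧ (DscSet B).Nonempty ∧ Cond3 A B ∧
      CondE A B 1 ∧ Adm A B 1 C ∧ ¬Drazin (M A B C) := by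
  have nf : ¬FiniteDimensional ℂ H := fun _ => by
    obtain ⟨w, hw⟩ := exists_ne (0 : H)
    obtain ⟨a, ha⟩ := LinearMap.injective_iff_surjective.1
      (Function.LeftInverse.injective (f := (A : H →ₗ[ℂ] H)) sa) (E w)
    exact hw (by rw [← pe w, ← ha]; exact pa a)
  have big : ∀ (V : Submodule ℂ H) (f g : H →L[ℂ] H), (∀ x, f x ∈ V) → (∀ x, g (f x) = x) →
      dim V = ⊤ := fun V f g h1 h2 => Cardinal.toENat_eq_top.2
    ((not_lt.1 (mt Module.rank_lt_aleph0_iff.1 nf)).trans (LinearMap.rank_le_of_injective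
      ((f : H →ₗ[ℂ] H).codRestrict V h1) fun x y h => by
        rw [← h2 x, ← h2 y]; exact congrArg (fun z : V => g z) h))
  obtain ⟨B, hB⟩ : ∃ B : H →L[ℂ] H, ∀ x, B x = A (S (S x)) + E (R (P (S x))) :=
    ⟨A * S * S + E * R * P * S, fun _ => rfl⟩
  have kb : ∀ x, B x = 0 → S x = 0 := fun x h => by
    have h1 := congrArg S h
    have h2 := congrArg P h
    simp only [hB, map_add, sa, se, pa, pe, add_zero, zero_add, map_zero] at h1 h2
    rw [← cu (S x), h1, ri _ h2]
    simp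
  have a0 : 0 ∈ AscSet A := asc_iff.2 fun x h => by simpa [sa] using congrArg S h
  have a1 : sInf (AscSet A) = 0 := Nat.sInf_eq_zero.2 (.inl a0)
  have b1 : 1 ∈ DscSet B := dsc_iff.2 fun x => ⟨A x, by simp [pw', hB, sa, se]⟩
  have ra : A.range = P.ker := le_antisymm (by rintro _ ⟨x, rfl⟩; exact pa x) fun x (h : P x = 0) =>
    ⟨S x, by simpa [h] using cu x⟩
  have ss : SS A 1 = A.range := sup_eq_left.2 fun x (h : (A ^ 1) x = 0) => by
    rw [show x = 0 by simpa [sa] using congrArg S h]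
    exact zero_mem _
  have tt : TT B 1 = (SS A 1)ᗮ := by
    rw [ss]
    refine le_antisymm (Submodule.topologicalClosure_minimal _ ?_ (Submodule.isClosed_orthogonal _))
      fun x hx => ?_
    · rintro x ⟨h, -⟩ _ ⟨y, rfl⟩
      exact (hA _ _).trans (by rw [kb x h, inner_zero_right])
    · have h1 : S x = 0 := inner_self_eq_zero.1 ((hA _ _).symm.trans (hx _ ⟨_, rfl⟩))
      rw [← cu x, h1, map_zero, zero_add]
      refine rd.induction_on (p := fun w => E w ∈ TT B 1) _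
        ((Submodule.isClosed_topologicalClosure _).preimage E.continuous) fun w =>
          Submodule.le_topologicalClosure _ ⟨show B _ = 0 by simp [hB, se], A (E w), ?_⟩
      simp [hB, sa, se, pe]
  have mt : ∀ x, x ∈ TT B 1 ↔ S x = 0 := fun x => by
    rw [tt, ss]
    exact ⟨fun hx => inner_self_eq_zero.1 ((hA _ _).symm.trans (hx _ ⟨_, rfl⟩)), by
      rintro h _ ⟨y, rfl⟩; exact (hA _ _).trans (by rw [h, inner_zero_right])⟩
  have eig : ∀ l : ℂ, ‖l‖ < 1 / (‖A‖ + 1) → ∃ G : H →L[ℂ] H, (∀ x, S (G x) = l • G x) ∧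
      ∀ x, P (G x) = x := fun l hl => by
    have h : ‖l • A‖ < 1 := by
      rw [lt_div_iff₀ (by positivity)] at hl
      rw [norm_smul]
      nlinarith [norm_nonneg l]
    have e : ∀ x, (Units.oneSub _ h)⁻¹.1 x = x + l • A ((Units.oneSub _ h)⁻¹.1 x) := fun x =>
      sub_eq_iff_eq_add.1 (congrArg (fun T : H →L[ℂ] H => T x) (Units.oneSub _ h).mul_inv)
    refine ⟨(Units.oneSub _ h)⁻¹.1 * E, fun x => ?_, fun x => ?_⟩
    · change S ((Units.oneSub _ h)⁻¹.1 (E x)) = l • (Units.oneSub _ h)⁻¹.1 (E x)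
      conv_lhs => rw [e, map_add, map_smul, se, sa, zero_add]
    · change P ((Units.oneSub _ h)⁻¹.1 (E x)) = x
      rw [e, map_add, map_smul, pe, pa, smul_zero, add_zero]
  refine ⟨nf, B, E * P, ⟨⟨0, a0⟩, ?_⟩, ⟨1, b1⟩, ⟨1 / (‖A‖ + 1), by positivity, fun l l0 hl => ?_⟩,
    ⟨le_rfl, by omega, Nat.sInf_le b1, ?_, by rw [tt]⟩,
    ⟨ContinuousLinearEquiv.ofEq _ _ tt, fun t => ?_, fun y hy => ?_⟩, fun ⟨_, k, hk⟩ => ?_⟩
  · rw [a1, zero_add, pow_one, ra]
    exact isClosed_ker P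
  · obtain ⟨G, g1, g2⟩ := eig l hl
    obtain ⟨G', g3, g4⟩ := eig (starRingEnd ℂ l) (by simpa using hl)
    rw [big _ G' P ?_ g4, big _ (A * G + l⁻¹ • (E * R)) (P * S) ?_ fun x => by simp [sa, se, g2]]
    · intro x
      simp [hB, sa, se, g1, g2, smul_smul, l0]
    · rintro x _ ⟨y, rfl⟩
      simp [inner_sub_left, hA, g3, inner_smul_left, inner_smul_right]
  · rw [ss, ra]
    exact isClosed_ker P
  · change E (P t) = t
    simpa [(mt _).1 t.2] using cu t
  · have : P y = 0 := inner_self_eq_zero.1 ((hE _ _).symm.trans (hy _ ((mt _).2 (se _))))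
    simp [this]
  have inj : ∀ j z, (M A B (E * P) ^ j) z = 0 → z = 0 := fun j => by
    induction j with
    | zero => simp
    | succ j ih =>
      intro z hz
      have h := ih _ (pw _ j z ▸ hz)
      rw [M_apply, Prod.ext_iff] at h
      have h1 := congrArg S h.1
      have h2 := congrArg P h.1
      simp [sa, se, pa, pe] at h1 h2
      refine Prod.ext h1 ?_
      rw [← cu z.2, kb _ h.2, h2]
      simp
  obtain ⟨z, hz⟩ := dsc_iff.1 hk (0, E v)
  rw [pw, ← sub_eq_zero, ← map_sub] at hz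
  have := congrArg (fun z => P z.2) (sub_eq_zero.1 (inj _ _ hz))
  exact rv (P (S z.2)) (by simpa [M_apply, hB, pa, pe] using this)

/-- The space `ℓ²`. -/
noncomputable abbrev L := lp (fun _ : ℕ => ℂ) 2

/-- Passing to a subsequence. -/
noncomputable def sub (f : ℕ → ℕ) (hf : Function.Injective f) : L →L[ℂ] L :=
  LinearMap.mkContinuous
    { toFun := fun x => ⟨fun n => x (f n),
        memℓp_gen (((lp.memℓp x).summable (by norm_num)).comp_injective hf)⟩
      map_add' := fun _ _ => rfl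
      map_smul' := fun _ _ => rfl } 1 fun x => by
    rw [one_mul]
    refine lp.norm_le_of_tsum_le (by norm_num) (norm_nonneg _) ?_
    rw [lp.norm_rpow_eq_tsum (by norm_num)]
    exact tsum_comp_le_tsum_of_inj ((lp.memℓp x).summable (by norm_num)) (fun _ => by positivity) hf

lemma sub_apply (f : ℕ → ℕ) (hf : Function.Injective f) (x : L) (n : ℕ) : sub f hf x n = x (f n) :=
  rfl

lemma adj_apply (f : ℕ → ℕ) (hf : Function.Injective f) (x : L) (m : ℕ) :
    (∀ n, f n = m → adjoint (sub f hf) x m = x n) ∧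
      ((∀ n, f n ≠ m) → adjoint (sub f hf) x m = 0) := by
  have e : adjoint (sub f hf) x m = inner ℂ (sub f hf (lp.single 2 m 1)) x := by
    rw [← adjoint_inner_right, lp.inner_single_left]
    simp
  refine ⟨fun n h => ?_, fun h => ?_⟩
  · have : sub f hf (lp.single 2 m 1) = lp.single 2 n 1 := lp.ext (funext fun k => by
      simp [sub_apply, ← h, Pi.single_apply, hf.eq_iff])
    rw [e, this, lp.inner_single_left]
    simp
  · have : sub f hf (lp.single 2 m 1) = 0 := lp.ext (funext fun k => by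
      simp [sub_apply, Pi.single_apply, h k])
    rw [e, this, inner_zero_left]

theorem result :
    (∃ (H : Type) (_ : NormedAddCommGroup H) (_ : InnerProductSpace ℂ H) (_ : CompleteSpace H),
      TopologicalSpace.SeparableSpace H ∧ ¬FiniteDimensional ℂ H ∧ ∃ (A B C : H →L[ℂ] H) (p : ℕ),
        LeftDrazin A ∧ (DscSet B).Nonempty ∧ Cond3 A B ∧ CondE A B p ∧ Adm A B p C ∧
          ¬Drazin (M A B C)) ∧
    ∀ (H K : Type) [NormedAddCommGroup H] [InnerProductSpace ℂ H] [CompleteSpace H]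
      [NormedAddCommGroup K] [InnerProductSpace ℂ K] [CompleteSpace K] (A : H →L[ℂ] H)
      (B : K →L[ℂ] K) (C : K →L[ℂ] H) (p : ℕ), (AscSet A).Nonempty → RightDrazin B →
        CondE A B p → Adm A B p C → Drazin (M A B C) := by
  refine ⟨?_, fun _ _ _ _ _ _ _ _ _ _ _ _ => q2⟩
  have f1 : Function.Injective fun n : ℕ => 2 * n + 1 := fun a b h => by simpa using h
  have f0 : Function.Injective fun n : ℕ => 2 * n := fun a b h => by simpa using h
  let t : ℕ → ℂ := fun n => (1 / 2) ^ n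
  have t0 : ∀ n, t n ≠ 0 := fun n => pow_ne_zero _ (by norm_num)
  let v : L := ⟨t, memℓp_gen (by
    have : Summable fun n : ℕ => ((1 / 2 : ℝ) ^ 2) ^ n :=
      summable_geometric_of_lt_one (by norm_num) (by norm_num)
    simpa [t, ← pow_mul, mul_comm] using this)⟩
  let R : L →L[ℂ] L := lp.mapCLM 2 (fun n => t n • ContinuousLinearMap.id ℂ ℂ) zero_le_one
    fun n => by
      rw [norm_smul, ContinuousLinearMap.norm_id, mul_one, norm_pow]
      exact pow_le_one₀ (norm_nonneg _) (by norm_num)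
  have Ra : ∀ x n, R x n = t n * x n := fun _ _ => rfl
  have nv : ∀ x, R x ≠ v := fun x hx => by
    have h1 : ∀ n, x n = 1 := fun n => mul_left_cancel₀ (t0 n) (by rw [← Ra, hx, mul_one])
    have := ((lp.memℓp x).summable (by norm_num)).tendsto_atTop_zero
    simp [h1] at this
  have : Nontrivial L := ⟨_, _, nv 0⟩
  obtain ⟨h1, B, C, h2⟩ := cex (adjoint (sub _ f1)) (sub _ f1) (adjoint (sub _ f0)) (sub _ f0) R
    (fun _ _ => adjoint_inner_left _ _ _) (fun _ _ => adjoint_inner_left _ _ _)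
    (fun x => lp.ext (funext fun n => (adj_apply _ f1 x _).1 n rfl))
    (fun x => lp.ext (funext fun n => (adj_apply _ f0 x _).1 n rfl))
    (fun x => lp.ext (funext fun n => (adj_apply _ f0 x (2 * n + 1)).2 fun k => by omega))
    (fun x => lp.ext (funext fun n => (adj_apply _ f1 x (2 * n)).2 fun k => by omega))
    (fun x => lp.ext (funext fun m => by
      rw [lp.coeFn_add, Pi.add_apply]
      obtain ⟨n, rfl | rfl⟩ := m.even_or_odd'
      · rw [(adj_apply _ f0 _ _).1 n rfl, (adj_apply _ f1 _ _).2 fun k => by omega, zero_add]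
        rfl
      · rw [(adj_apply _ f1 _ _).1 n rfl, (adj_apply _ f0 _ _).2 fun k => by omega, add_zero]
        rfl))
    (fun x h => lp.ext (funext fun n => mul_left_cancel₀ (t0 n) (by rw [← Ra, h]; simp)))
    (fun w => mem_closure_of_tendsto (lp.hasSum_single (by simp) w) (.of_forall fun s =>
      ⟨∑ n ∈ s, lp.single 2 n (w n / t n), by
        rw [map_sum]
        refine Finset.sum_congr rfl fun n _ => lp.ext (funext fun k => ?_)
        rw [Ra]
        rcases eq_or_ne k n with rfl | hk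
        · simp [mul_div_cancel₀ _ (t0 k)]
        · simp [Pi.single_eq_of_ne hk]⟩)) nv
  refine ⟨L, _, _, inferInstance, ?_, h1, _, B, C, 1, h2⟩
  have := ((Set.countable_range (default : HilbertBasis ℕ ℂ L)).isSeparable.span (R := ℂ)).closure
  rw [← Submodule.topologicalClosure_coe, HilbertBasis.dense_span] at this
  exact TopologicalSpace.isSeparable_univ_iff.1 this

end Pool.Agent.Results.MP_632fda_an.Both
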